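import Pool.Agent.L7h10.AB.Stm2

set_option autoImplicit false

namespace Pool.Agent.L7h79.AB

open Polynomial Pool.Agent.L7h10.AB

lemma cube_dvd {K : Type} [Field K] (h2 : (2 : K) ≠ 0) (P : K[X]) (b : K) (h0 : P.eval b = 0)
    (hd : (X - C b) ^ 2 ∣ derivative P) : (X - C b) ^ 3 ∣ P := by
  obtain ⟨Q, hQ⟩ := dvd_iff_isRoot.2 h0
  have h3 : X - C b ∣ Q := by
    have e : derivative P = Q + (X - C b) * derivative Q := by
      rw [hQ, derivative_mul]
      simp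
    have e2 : Q = derivative P - (X - C b) * derivative Q := by rw [e]; ring
    rw [e2]
    exact dvd_sub ((dvd_pow_self _ two_ne_zero).trans hd) (dvd_mul_right _ _)
  obtain ⟨R, hR⟩ := h3
  have h4 : X - C b ∣ R := by
    have e : derivative P = (X - C b) * (C 2 * R) + (X - C b) ^ 2 * derivative R := by
      rw [hQ, hR, derivative_mul, derivative_mul]
      simp only [derivative_sub, derivative_X, derivative_C, sub_zero, one_mul]
      have e0 : (C (2 : K) : K[X]) = 2 := map_ofNat C 2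
      rw [e0]
      ring
    have e2 : (X - C b) * (X - C b) ∣ (X - C b) * (C 2 * R) := by
      have : (X - C b) * (C 2 * R) = derivative P - (X - C b) ^ 2 * derivative R := by
        rw [e]; ring
      rw [this, ← pow_two]
      exact dvd_sub hd (dvd_mul_right _ _)
    have e3 : X - C b ∣ C 2 * R := (mul_dvd_mul_iff_left (X_sub_C_ne_zero b)).1 e2
    have e4 : X - C b ∣ C (2⁻¹ : K) * (C 2 * R) := e3.mul_left _
    rwa [← mul_assoc, ← C_mul, inv_mul_cancel₀ h2, C_1, one_mul] at e4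
  obtain ⟨S, hS⟩ := h4
  rw [hQ, hR, hS]
  exact ⟨S, by ring⟩

lemma exists_res {K : Type} [Field K] (b : K) (g : K[X]) (hg : g.eval b ≠ 0) (c : K) :
    ∃ r : K[X], ∀ h : K[X], (X - C b) ^ 3 ∣ g ^ 2 * h - C c → (X - C b) ^ 3 ∣ h - r := by
  have hco : IsCoprime ((X - C b) ^ 3) (g ^ 2) := by
    apply IsCoprime.pow
    rw [(irreducible_X_sub_C b).coprime_iff_not_dvd]
    rwa [dvd_iff_isRoot]
  obtain ⟨u, v, huv⟩ := hco
  refine ⟨C c * v, fun h hh => ?_⟩
  have e : h - C c * v = (X - C b) ^ 3 * (u * h) + v * (g ^ 2 * h - C c) := by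
    linear_combination (-h) * huv
  rw [e]
  exact dvd_add (dvd_mul_right _ _) (hh.mul_left _)

theorem cb1 (hC : S_CARD) (hR : S_RES) (K : Type) [Field K] [Finite K] (p : ℕ) [CharP K p]
    (n : ℕ) (h6 : 6 ≤ n) (hp : n + 1 < p) :
    Nat.card {x : K × Mon K 2 × Mon K (n - 3) // x.2.1.1.eval x.1 ≠ 0 ∧
      (X - C x.1) ^ 2 ∣ derivative (x.2.1.1 ^ 2 * x.2.2.1)} ≤ Nat.card K ^ (n - 2) := by
  classical
  have h2 : (2 : K) ≠ 0 := by
    intro h
    have h' : ((2 : ℕ) : K) = 0 := by exact_mod_cast h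
    rw [CharP.cast_eq_zero_iff K p] at h'
    have := Nat.le_of_dvd (by norm_num) h'
    omega
  have hF2 : Finite (Mon K 2) := (hC K 2).1
  have hF3 : Finite (Mon K (n - 3)) := (hC K (n - 3)).1
  have hch : ∀ t : K × Mon K 2 × K, ∃ r : K[X], t.2.1.1.eval t.1 ≠ 0 →
      ∀ h : K[X], (X - C t.1) ^ 3 ∣ t.2.1.1 ^ 2 * h - C t.2.2 → (X - C t.1) ^ 3 ∣ h - r := by
    intro t
    by_cases ht : t.2.1.1.eval t.1 ≠ 0
    · obtain ⟨r, hr⟩ := exists_res t.1 t.2.1.1 ht t.2.2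
      exact ⟨r, fun _ => hr⟩
    · exact ⟨0, fun h => absurd h ht⟩
  choose r hr using hch
  have hcube : ∀ b : K, ((X - C b) ^ 3 : K[X]).natDegree = 3 := by
    intro b
    rw [natDegree_pow, natDegree_X_sub_C]
  have hcard : ∀ t : K × Mon K 2 × K,
      Nat.card {h : Mon K (n - 3) // (X - C t.1) ^ 3 ∣ h.1 - r t} = Nat.card K ^ (n - 6) := by
    intro t
    have h := hR K (n - 3) ((X - C t.1) ^ 3) (r t) ((monic_X_sub_C _).pow 3)
      (by rw [hcube]; omega)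
    have e : n - 3 - 3 = n - 6 := by omega
    rw [h, hcube, e]
  let φ : {x : K × Mon K 2 × Mon K (n - 3) // x.2.1.1.eval x.1 ≠ 0 ∧
      (X - C x.1) ^ 2 ∣ derivative (x.2.1.1 ^ 2 * x.2.2.1)} →
      Σ t : K × Mon K 2 × K, {h : Mon K (n - 3) // (X - C t.1) ^ 3 ∣ h.1 - r t} :=
    fun x => ⟨(x.1.1, x.1.2.1, (x.1.2.1.1 ^ 2 * x.1.2.2.1).eval x.1.1), x.1.2.2, by
      refine hr (x.1.1, x.1.2.1, (x.1.2.1.1 ^ 2 * x.1.2.2.1).eval x.1.1) x.2.1 _ ?_
      refine cube_dvd h2 _ _ ?_ ?_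
      · simp
      · rw [derivative_sub, derivative_C, sub_zero]
        exact x.2.2⟩
  have hφ : Function.Injective φ := by
    rintro ⟨⟨b, g, h⟩, hx⟩ ⟨⟨b', g', h'⟩, hx'⟩ e
    have e1 := congrArg Sigma.fst e
    have e2 : (φ ⟨⟨b, g, h⟩, hx⟩).2.1 = (φ ⟨⟨b', g', h'⟩, hx'⟩).2.1 := by rw [e]
    have e3 : h = h' := e2
    simp only [φ, Prod.mk.injEq] at e1
    obtain ⟨rfl, rfl, -⟩ := e1
    subst e3
    rfl
  refine (Nat.card_le_card_of_injective φ hφ).trans ?_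
  have : Fintype (K × Mon K 2 × K) := Fintype.ofFinite _
  rw [Nat.card_sigma]
  simp only [hcard]
  rw [Finset.sum_const, smul_eq_mul, Finset.card_univ, ← Nat.card_eq_fintype_card, Nat.card_prod,
    Nat.card_prod, (hC K 2).2]
  have e : Nat.card K * (Nat.card K ^ 2 * Nat.card K) * Nat.card K ^ (n - 6) =
      Nat.card K ^ (4 + (n - 6)) := by
    rw [pow_add]
    ring
  rw [e]
  exact (Nat.pow_le_pow_right Nat.card_pos (by omega))

end Pool.Agent.L7h79.AB
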